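import Pool.Agent.Helper55.CF.Goals

/-!
# MP_b612a6_ag, packet CRIT: the weighted estimate for the critical value
-/

set_option autoImplicit false

open MeasureTheory Complex
open scoped ContDiff ComplexConjugate

noncomputable section
namespace Pool.Agent.Helper61.CF

open CF55

/-- the vector with given coefficients in the frame `e` -/
def vec (e : Fin 6 → V) (c : Fin 6 → ℂ) : V := ∑ i, c i • e i

theorem vec_add (e : Fin 6 → V) (c c' : Fin 6 → ℂ) : vec e (c + c') = vec e c + vec e c' := by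
  simp [vec, add_smul, Finset.sum_add_distrib]

theorem vec_single (e : Fin 6 → V) (k : Fin 6) : vec e (Pi.single k 1) = e k := by
  rw [vec, Finset.sum_eq_single k]
  · rw [Pi.single_eq_same, one_smul]
  · intro j _ hj
    rw [Pi.single_eq_of_ne hj, zero_smul]
  · intro h
    exact absurd (Finset.mem_univ k) h

theorem chartVec_eq (e : Fin 6 → V) (x y : ℂ) (z : Z) :
    chartVec e (x, y, z) = vec e ![1, x, y, z 0, z 1, z 2] := by
  simp [chartVec, vec, Fin.sum_univ_succ, add_assoc]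

theorem T_vec (T : Tri) (e : Fin 6 → V) (a b c : Fin 6 → ℂ) :
    T (vec e a) (vec e b) (vec e c) = ∑ i, ∑ j, ∑ k, a i * (b j * (c k * T (e i) (e j) (e k))) := by
  have h1 : T (vec e a) = ∑ i, a i • T (e i) := by
    rw [vec, map_sum]
    simp only [map_smul]
  rw [h1, LinearMap.sum_apply, LinearMap.sum_apply]
  refine Finset.sum_congr rfl fun i _ => ?_
  have h2 : T (e i) (vec e b) = ∑ j, b j • T (e i) (e j) := by
    rw [vec, map_sum]
    simp only [map_smul]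
  rw [LinearMap.smul_apply, LinearMap.smul_apply, h2, LinearMap.sum_apply, Finset.smul_sum]
  refine Finset.sum_congr rfl fun j _ => ?_
  have h3 : T (e i) (e j) (vec e c) = ∑ k, c k * T (e i) (e j) (e k) := by
    rw [vec, map_sum]
    simp only [map_smul, smul_eq_mul]
  rw [LinearMap.smul_apply, h3]
  simp only [smul_eq_mul, Finset.mul_sum]

theorem T_vec_norm (T : Tri) (e : Fin 6 → V) (a b c : Fin 6 → ℂ) :
    ‖T (vec e a) (vec e b) (vec e c)‖ ≤
      ∑ i, ∑ j, ∑ k, ‖a i‖ * (‖b j‖ * (‖c k‖ * ‖T (e i) (e j) (e k)‖)) := by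
  rw [T_vec]
  refine (norm_sum_le _ _).trans (Finset.sum_le_sum fun i _ => ?_)
  refine (norm_sum_le _ _).trans (Finset.sum_le_sum fun j _ => ?_)
  refine (norm_sum_le _ _).trans (Finset.sum_le_sum fun k _ => ?_)
  rw [norm_mul, norm_mul, norm_mul]

/-- the constant -/
def MM (T : Tri) (e : Fin 6 → V) : ℝ := 1 + ∑ i, ∑ j, ∑ k, ‖T (e i) (e j) (e k)‖

theorem MM_pos (T : Tri) (e : Fin 6 → V) : 0 < MM T e := by
  unfold MM
  positivity

theorem sum3_le (T : Tri) (e : Fin 6 → V) (N : ℝ) (hN : 0 ≤ N) (F : Fin 6 → Fin 6 → Fin 6 → ℝ)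
    (hF : ∀ i j k, F i j k ≤ N * ‖T (e i) (e j) (e k)‖) :
    ∑ i, ∑ j, ∑ k, F i j k ≤ MM T e * N := by
  have h1 : ∑ i, ∑ j, ∑ k, F i j k ≤ ∑ i, ∑ j, ∑ k, N * ‖T (e i) (e j) (e k)‖ :=
    Finset.sum_le_sum fun i _ => Finset.sum_le_sum fun j _ => Finset.sum_le_sum fun k _ => hF i j k
  refine h1.trans ?_
  simp only [← Finset.mul_sum]
  unfold MM
  nlinarith

theorem bound3 (T : Tri) (e : Fin 6 → V) (a b c : Fin 6 → ℂ) :
    ‖T (vec e a) (vec e b) (vec e c)‖ ≤ MM T e * (‖a‖ * ‖b‖ * ‖c‖) := by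
  refine (T_vec_norm T e a b c).trans (sum3_le T e _ (by positivity) _ fun i j k => ?_)
  have h1 := norm_le_pi_norm a i
  have h2 := norm_le_pi_norm b j
  have h3 := norm_le_pi_norm c k
  calc ‖a i‖ * (‖b j‖ * (‖c k‖ * ‖T (e i) (e j) (e k)‖))
      ≤ ‖a‖ * (‖b‖ * (‖c‖ * ‖T (e i) (e j) (e k)‖)) := by gcongr
    _ = _ := by ring

theorem weight3 (T : Tri) (e : Fin 6 → V) (w : Fin 6 → ℕ) (d : ℕ)
    (hs : ∀ a b c, T (e a) (e b) (e c) ≠ 0 → d ≤ w a + w b + w c)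
    (K t : ℝ) (hK : 0 ≤ K) (ht : 0 < t) (ht1 : t ≤ 1) (a : Fin 6 → ℂ)
    (ha : ∀ i, ‖a i‖ ≤ K * t ^ w i) :
    ‖T (vec e a) (vec e a) (vec e a)‖ ≤ MM T e * (K ^ 3 * t ^ d) := by
  refine (T_vec_norm T e a a a).trans (sum3_le T e _ (by positivity) _ fun i j k => ?_)
  by_cases h : T (e i) (e j) (e k) = 0
  · rw [h]; simp
  · have h1 := ha i
    have h2 := ha j
    have h3 := ha k
    calc ‖a i‖ * (‖a j‖ * (‖a k‖ * ‖T (e i) (e j) (e k)‖))
        ≤ (K * t ^ w i) * ((K * t ^ w j) * ((K * t ^ w k) * ‖T (e i) (e j) (e k)‖)) := by gcongr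
      _ = K ^ 3 * t ^ (w i + w j + w k) * ‖T (e i) (e j) (e k)‖ := by ring
      _ ≤ _ := by
        have h4 : t ^ (w i + w j + w k) ≤ t ^ d := pow_le_pow_of_le_one ht.le ht1 (hs i j k h)
        gcongr

theorem weight2 (T : Tri) (e : Fin 6 → V) (w : Fin 6 → ℕ) (d : ℕ)
    (hs : ∀ a b c, T (e a) (e b) (e c) ≠ 0 → d ≤ w a + w b + w c)
    (K t : ℝ) (hK : 0 ≤ K) (ht : 0 < t) (ht1 : t ≤ 1) (a : Fin 6 → ℂ)
    (ha : ∀ i, ‖a i‖ ≤ K * t ^ w i) (l : Fin 6) (n : ℕ) (hn : n + w l = d) :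
    ‖T (vec e a) (vec e a) (e l)‖ ≤ MM T e * (K ^ 2 * t ^ n) := by
  rw [← vec_single e l]
  refine (T_vec_norm T e a a _).trans (sum3_le T e _ (by positivity) _ fun i j k => ?_)
  by_cases h : T (e i) (e j) (e k) = 0
  · rw [h]; simp
  · by_cases hk : k = l
    · subst hk
      have h1 := ha i
      have h2 := ha j
      rw [Pi.single_eq_same, norm_one, one_mul]
      calc ‖a i‖ * (‖a j‖ * ‖T (e i) (e j) (e k)‖)
          ≤ (K * t ^ w i) * ((K * t ^ w j) * ‖T (e i) (e j) (e k)‖) := by gcongr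
        _ = K ^ 2 * t ^ (w i + w j) * ‖T (e i) (e j) (e k)‖ := by ring
        _ ≤ _ := by
          have h4 : t ^ (w i + w j) ≤ t ^ n := pow_le_pow_of_le_one ht.le ht1 (by
            have := hs i j k h
            omega)
          gcongr
    · rw [Pi.single_eq_of_ne hk, norm_zero, zero_mul, mul_zero, mul_zero]
      positivity

theorem quadroot (A L r : ℂ) (hL : L ≠ 0) :
    ∃ X : ℂ, A * X ^ 2 + L * X + r = 0 ∧ ‖X‖ * ‖L‖ ≤ 2 * ‖r‖ := by
  obtain ⟨S, hS, hre⟩ : ∃ S : ℂ, S ^ 2 = L ^ 2 - 4 * A * r ∧ 0 ≤ (S * conj L).re := by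
    obtain ⟨S, hS⟩ : ∃ S : ℂ, S ^ 2 = L ^ 2 - 4 * A * r :=
      IsAlgClosed.exists_pow_nat_eq _ (by norm_num)
    by_cases h : 0 ≤ (S * conj L).re
    · exact ⟨S, hS, h⟩
    · refine ⟨-S, by rw [neg_sq, hS], ?_⟩
      rw [neg_mul, Complex.neg_re]
      linarith [not_le.1 h]
  have h1 : ‖L‖ ^ 2 ≤ ‖L + S‖ ^ 2 := by
    rw [← Complex.normSq_eq_norm_sq, ← Complex.normSq_eq_norm_sq, Complex.normSq_add]
    have h2 : (L * conj S).re = (S * conj L).re := by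
      simp only [Complex.mul_re, Complex.conj_re, Complex.conj_im]
      ring
    rw [h2]
    have := Complex.normSq_nonneg S
    linarith
  have h2 : ‖L‖ ≤ ‖L + S‖ := by
    exact (sq_le_sq₀ (norm_nonneg _) (norm_nonneg _)).1 h1
  have hpos : 0 < ‖L‖ := norm_pos_iff.2 hL
  have hne : L + S ≠ 0 := norm_pos_iff.1 (hpos.trans_le h2)
  refine ⟨-2 * r / (L + S), ?_, ?_⟩
  · field_simp
    linear_combination r * hS
  · rw [norm_div, norm_mul, norm_neg]
    have h3 : ‖(2 : ℂ)‖ = 2 := by simp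
    rw [h3, div_mul_eq_mul_div, div_le_iff₀ (hpos.trans_le h2)]
    gcongr

theorem T_add_sq {T : Tri} (hT : Sym T) (v s x : V) :
    T (v + s) (v + s) x = T v v x + 2 * T v s x + T s s x := by
  simp only [map_add, LinearMap.add_apply]
  rw [hT.s12 s v x]
  ring

theorem T_add_cube {T : Tri} (hT : Sym T) (v s : V) :
    T (v + s) (v + s) (v + s) = T v v v + 3 * T v v s + 3 * T v s s + T s s s := by
  rw [T_add_sq hT]
  simp only [map_add]
  have h1 : T v s v = T v v s := hT.s23 v s v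
  have h2 : T s s v = T v s s := by rw [hT.s23 s s v, hT.s12 s v s]
  rw [h1, h2]
  ring

theorem norm_single (k : Fin 6) : ‖(Pi.single k (1 : ℂ) : Fin 6 → ℂ)‖ = 1 := by
  rw [Pi.norm_single, norm_one]

theorem fin6_le {c : Fin 6 → ℂ} {b : ℝ} (hb : 0 ≤ b) (h0 : ‖c 0‖ ≤ b) (h1 : ‖c 1‖ ≤ b)
    (h2 : ‖c 2‖ ≤ b) (h3 : ‖c 3‖ ≤ b) (h4 : ‖c 4‖ ≤ b) (h5 : ‖c 5‖ ≤ b) : ‖c‖ ≤ b := by
  rw [pi_norm_le_iff_of_nonneg hb]
  intro i
  fin_cases i <;> assumption

/-- Packet `CRIT`. -/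
theorem stmtCRIT : G_CRIT := by
  intro T e w d hT hA h ξ hξc hξ0 hev
  obtain ⟨li, w0, wpos, pair, le12, sum, t00, t011, t022, t012, supp⟩ := hA
  have hMpos : 0 < MM T e := MM_pos T e
  set M := MM T e with hM
  set τ := T (e 0) (e 1) (e 2) with hτ
  have ha : 0 < ‖τ‖ := norm_pos_iff.2 t012
  set a := ‖τ‖ with haτ
  obtain ⟨η, hη, hη1, hη2⟩ : ∃ η : ℝ, 0 < η ∧ η ≤ 1 / 2 ∧ 4 * M * η ≤ a := by
    refine ⟨min (1 / 2) (a / (4 * M)), by positivity, min_le_left _ _, ?_⟩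
    calc 4 * M * min (1 / 2) (a / (4 * M)) ≤ 4 * M * (a / (4 * M)) := by
          gcongr
          exact min_le_right _ _
      _ = a := by field_simp
  obtain ⟨δ0, hδ0, hδ0'⟩ : ∃ δ0 : ℝ, 0 < δ0 ∧ ∀ z : Z, ‖z‖ < δ0 →
      (h z = chart T e ((ξ z).1, (ξ z).2, z) ∧
      T (chartVec e ((ξ z).1, (ξ z).2, z)) (chartVec e ((ξ z).1, (ξ z).2, z)) (e 1) = 0 ∧
      T (chartVec e ((ξ z).1, (ξ z).2, z)) (chartVec e ((ξ z).1, (ξ z).2, z)) (e 2) = 0) ∧
      ‖ξ z‖ < η := by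
    have h1 : ∀ᶠ z in nhds (0:Z), ‖ξ z‖ < η := by
      have h2 : Filter.Tendsto (fun z => ‖ξ z‖) (nhds 0) (nhds 0) := by
        have h3 := hξc.norm
        unfold ContinuousAt at h3
        beta_reduce at h3
        rwa [hξ0, norm_zero] at h3
      exact h2.eventually (gt_mem_nhds hη)
    obtain ⟨δ0, hδ0, hb⟩ := Metric.eventually_nhds_iff.1 (hev.and h1)
    exact ⟨δ0, hδ0, fun z hz => hb (by rwa [dist_zero_right])⟩
  obtain ⟨δ, hδ, hδη, hδδ0, hδ3⟩ : ∃ δ : ℝ, 0 < δ ∧ δ ≤ η ∧ δ < δ0 ∧ 6 * M * δ ≤ η * a := by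
    refine ⟨min η (min (δ0 / 2) (η * a / (6 * M))), by positivity, min_le_left _ _, ?_, ?_⟩
    · calc min η (min (δ0 / 2) (η * a / (6 * M))) ≤ δ0 / 2 :=
          (min_le_right _ _).trans (min_le_left _ _)
        _ < δ0 := by linarith
    · calc 6 * M * min η (min (δ0 / 2) (η * a / (6 * M))) ≤ 6 * M * (η * a / (6 * M)) := by
            gcongr
            exact (min_le_right _ _).trans (min_le_right _ _)
        _ = η * a := by field_simp
  obtain ⟨K3, hK3⟩ : ∃ K3 : ℝ, K3 = 1 + 2 * M / a := ⟨_, rfl⟩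
  have hK3pos : 0 < K3 := by rw [hK3]; positivity
  refine ⟨M * K3 ^ 3 + 4 * M * (M * K3 ^ 2 / a) ^ 2, δ, hδ, ?_⟩
  intro t ht ht1 z hz
  have hz0 : ‖z 0‖ ≤ δ * t ^ w 3 := hz 0
  have hz1 : ‖z 1‖ ≤ δ * t ^ w 4 := hz 1
  have hz2 : ‖z 2‖ ≤ δ * t ^ w 5 := hz 2
  have htp : ∀ n : ℕ, t ^ n ≤ 1 := fun n => pow_le_one₀ ht.le ht1
  have htp0 : ∀ n : ℕ, 0 < t ^ n := fun n => pow_pos ht n
  have hδ1 : δ ≤ 1 := by linarith
  have hz0' : ‖z 0‖ ≤ δ := hz0.trans (mul_le_of_le_one_right hδ.le (htp _))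
  have hz1' : ‖z 1‖ ≤ δ := hz1.trans (mul_le_of_le_one_right hδ.le (htp _))
  have hz2' : ‖z 2‖ ≤ δ := hz2.trans (mul_le_of_le_one_right hδ.le (htp _))
  have hzn : ‖z‖ < δ0 := by
    refine lt_of_le_of_lt ((pi_norm_le_iff_of_nonneg hδ.le).2 fun i => ?_) hδδ0
    fin_cases i <;> assumption
  obtain ⟨⟨hh, hv1, hv2⟩, hξη⟩ := hδ0' z hzn
  have hξ1 : ‖(ξ z).1‖ ≤ η := (norm_fst_le _).trans hξη.le
  have hξ2 : ‖(ξ z).2‖ ≤ η := (norm_snd_le _).trans hξη.le
  -- the vectors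
  obtain ⟨zc, hzc⟩ : ∃ zc : Fin 6 → ℂ, zc = ![0, 0, 0, z 0, z 1, z 2] := ⟨_, rfl⟩
  have hzcn : ‖zc‖ ≤ δ := by
    rw [hzc]
    refine fin6_le hδ.le ?_ ?_ ?_ hz0' hz1' hz2' <;> simp [hδ.le]
  obtain ⟨c0, hc0⟩ : ∃ c0 : Fin 6 → ℂ, c0 = ![1, 0, 0, z 0, z 1, z 2] := ⟨_, rfl⟩
  have hc0' : vec e c0 = e 0 + vec e zc := by
    rw [← vec_single e 0, ← vec_add]
    congr 1
    rw [hc0, hzc]
    funext i
    fin_cases i <;> simp
  have hc0w : ∀ i, ‖c0 i‖ ≤ 1 * t ^ w i := by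
    intro i
    rw [hc0]
    have h3 : ‖z 0‖ ≤ 1 * t ^ w 3 := hz0.trans (by gcongr)
    have h4 : ‖z 1‖ ≤ 1 * t ^ w 4 := hz1.trans (by gcongr)
    have h5 : ‖z 2‖ ≤ 1 * t ^ w 5 := hz2.trans (by gcongr)
    fin_cases i
    · simp [w0]
    · simp only [Fin.mk_one, Matrix.cons_val_one, Matrix.cons_val_zero, norm_zero]
      positivity
    · simp only [Fin.reduceFinMk, Matrix.cons_val, norm_zero]
      positivity
    · exact h3
    · exact h4
    · exact h5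
  obtain ⟨r, hr⟩ : ∃ r, r = T (vec e c0) (vec e c0) (e 2) := ⟨_, rfl⟩
  have hr1 : ‖r‖ ≤ M * t ^ w 1 := by
    have := weight2 T e w d supp 1 t zero_le_one ht ht1 c0 hc0w 2 (w 1) pair
    rw [one_pow, one_mul] at this
    rw [hr]
    exact this
  have hb01 : ‖T (e 0) (vec e zc) (e 2)‖ ≤ M * δ := by
    have h1 := bound3 T e (Pi.single 0 1) zc (Pi.single 2 1)
    rw [vec_single, vec_single, norm_single, norm_single, one_mul, mul_one] at h1
    exact h1.trans (by gcongr)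
  have hb02 : ‖T (vec e zc) (vec e zc) (e 2)‖ ≤ M * δ := by
    have h1 := bound3 T e zc zc (Pi.single 2 1)
    rw [vec_single, norm_single, mul_one] at h1
    refine h1.trans ?_
    gcongr
    calc ‖zc‖ * ‖zc‖ ≤ 1 * δ := by
          gcongr
          exact hzcn.trans hδ1
      _ = δ := one_mul _
  have hr2 : ‖r‖ ≤ 3 * M * δ := by
    rw [hr, hc0', T_add_sq hT, t00, zero_add]
    refine (norm_add_le _ _).trans ?_
    rw [norm_mul]
    have h3 : ‖(2 : ℂ)‖ = 2 := by simp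
    rw [h3]
    linarith
  obtain ⟨l, hl⟩ : ∃ l, l = T (vec e c0) (e 1) (e 2) := ⟨_, rfl⟩
  have hla : a ≤ ‖2 * l‖ := by
    have h1 := bound3 T e zc (Pi.single 1 1) (Pi.single 2 1)
    rw [vec_single, vec_single, norm_single, norm_single, mul_one, mul_one] at h1
    have h2 : l = τ + T (vec e zc) (e 1) (e 2) := by
      rw [hl, hc0']
      simp only [map_add, LinearMap.add_apply, hτ]
    have h3 : a ≤ ‖l‖ + M * ‖zc‖ := by
      calc a = ‖l - T (vec e zc) (e 1) (e 2)‖ := by rw [h2, add_sub_cancel_right]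
        _ ≤ ‖l‖ + ‖T (vec e zc) (e 1) (e 2)‖ := norm_sub_le _ _
        _ ≤ _ := by gcongr
    have h4 : M * ‖zc‖ ≤ M * η := by
      gcongr
      exact hzcn.trans hδη
    rw [norm_mul]
    have h5 : ‖(2 : ℂ)‖ = 2 := by simp
    rw [h5]
    linarith
  obtain ⟨X, hX1, hX2⟩ := quadroot (T (e 1) (e 1) (e 2)) (2 * l) r
    (norm_pos_iff.1 (ha.trans_le hla))
  have hX3 : ‖X‖ * a ≤ 2 * ‖r‖ := by
    refine le_trans ?_ hX2
    gcongr
  have hX4 : ‖X‖ ≤ 2 * M / a * t ^ w 1 := by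
    rw [div_mul_eq_mul_div, le_div_iff₀ ha]
    linarith
  have hX5 : ‖X‖ ≤ η := by
    have : ‖X‖ * a ≤ η * a := by linarith
    exact le_of_mul_le_mul_right this ha
  -- the point v'
  obtain ⟨c1, hc1⟩ : ∃ c1 : Fin 6 → ℂ, c1 = ![1, X, 0, z 0, z 1, z 2] := ⟨_, rfl⟩
  have hc1' : vec e c1 = vec e c0 + X • e 1 := by
    rw [hc1, hc0]
    simp only [vec, Fin.sum_univ_succ]
    simp
    abel
  have hv'2 : T (vec e c1) (vec e c1) (e 2) = 0 := by
    rw [hc1', T_add_sq hT, ← hr]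
    simp only [map_smul, LinearMap.smul_apply, smul_eq_mul]
    rw [← hl]
    linear_combination hX1
  have hc1w : ∀ i, ‖c1 i‖ ≤ K3 * t ^ w i := by
    intro i
    by_cases hi : i = 1
    · subst hi
      rw [hc1]
      change ‖X‖ ≤ _
      refine hX4.trans ?_
      gcongr
      rw [hK3]
      linarith
    · have h1 : c1 i = c0 i := by
        rw [hc1, hc0]
        fin_cases i
        · rfl
        · exact absurd rfl hi
        · rfl
        · rfl
        · rfl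
        · rfl
      rw [h1]
      refine (hc0w i).trans ?_
      gcongr
      rw [hK3]
      have : 0 ≤ 2 * M / a := by positivity
      linarith
  have hv'3 := weight3 T e w d supp K3 t hK3pos.le ht ht1 c1 hc1w
  have hv'1 := weight2 T e w d supp K3 t hK3pos.le ht ht1 c1 hc1w 1 (w 2) (by omega)
  -- the point v
  obtain ⟨εc, hεc⟩ : ∃ εc : Fin 6 → ℂ, εc = ![0, (ξ z).1, (ξ z).2, z 0, z 1, z 2] := ⟨_, rfl⟩
  have hεn : ‖εc‖ ≤ η := by
    rw [hεc]
    exact fin6_le hη.le (by simp [hη.le]) hξ1 hξ2 (hz0'.trans hδη) (hz1'.trans hδη)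
      (hz2'.trans hδη)
  obtain ⟨v, hv⟩ : ∃ v, v = chartVec e ((ξ z).1, (ξ z).2, z) := ⟨_, rfl⟩
  have hvε : v = e 0 + vec e εc := by
    rw [hv, chartVec_eq, ← vec_single e 0, ← vec_add]
    congr 1
    rw [hεc]
    funext i
    fin_cases i <;> simp
  obtain ⟨cv, hcv⟩ : ∃ cv : Fin 6 → ℂ, cv = ![1, (ξ z).1, (ξ z).2, z 0, z 1, z 2] := ⟨_, rfl⟩
  have hvc : v = vec e cv := by rw [hv, chartVec_eq, hcv]
  have hcvn : ‖cv‖ ≤ 1 := by
    rw [hcv]
    exact fin6_le zero_le_one (by simp) (by change ‖(ξ z).1‖ ≤ 1; linarith)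
      (by change ‖(ξ z).2‖ ≤ 1; linarith) (hz0'.trans hδ1) (hz1'.trans hδ1) (hz2'.trans hδ1)
  obtain ⟨s1, hs1⟩ : ∃ s1, s1 = X - (ξ z).1 := ⟨_, rfl⟩
  obtain ⟨s2, hs2⟩ : ∃ s2, s2 = -(ξ z).2 := ⟨_, rfl⟩
  obtain ⟨sc, hsc⟩ : ∃ sc : Fin 6 → ℂ, sc = ![0, s1, s2, 0, 0, 0] := ⟨_, rfl⟩
  obtain ⟨S, hS⟩ : ∃ S : ℝ, S = max ‖s1‖ ‖s2‖ := ⟨_, rfl⟩
  have hS0 : 0 ≤ S := by rw [hS]; positivity
  have hs1n : ‖s1‖ ≤ 2 * η := by
    rw [hs1]
    refine (norm_sub_le _ _).trans ?_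
    linarith
  have hs2n : ‖s2‖ ≤ 2 * η := by
    rw [hs2, norm_neg]
    linarith
  have hSη : S ≤ 2 * η := by rw [hS]; exact max_le hs1n hs2n
  have hscn : ‖sc‖ ≤ S := by
    rw [hsc]
    exact fin6_le hS0 (by simp [hS0]) (by rw [hS]; exact le_max_left _ _)
      (by rw [hS]; exact le_max_right _ _) (by simp [hS0]) (by simp [hS0]) (by simp [hS0])
  have hsvec : vec e sc = s1 • e 1 + s2 • e 2 := by
    rw [hsc]
    simp only [vec, Fin.sum_univ_succ]
    simp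
  have hv' : vec e c1 = v + vec e sc := by
    rw [hvc, ← vec_add]
    congr 1
    rw [hc1, hcv, hsc, hs1, hs2]
    funext i
    fin_cases i <;> simp
  rw [← hv] at hv1 hv2
  -- the two linear equations
  have hbε : ∀ k : Fin 6, ‖T (vec e εc) (vec e sc) (e k)‖ ≤ M * η * S := by
    intro k
    have h1 := bound3 T e εc sc (Pi.single k 1)
    rw [vec_single, norm_single, mul_one] at h1
    refine h1.trans ?_
    rw [mul_assoc]
    gcongr
  have hbs : ∀ k : Fin 6, ‖T (vec e sc) (vec e sc) (e k)‖ ≤ M * (2 * η) * S := by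
    intro k
    have h1 := bound3 T e sc sc (Pi.single k 1)
    rw [vec_single, norm_single, mul_one] at h1
    refine h1.trans ?_
    rw [mul_assoc]
    gcongr
    exact hscn.trans hSη
  have he1 : T (e 0) (vec e sc) (e 1) = s2 * τ := by
    rw [hsvec]
    simp only [map_add, LinearMap.add_apply, map_smul, LinearMap.smul_apply, smul_eq_mul]
    rw [t011, hT.s23 (e 0) (e 2) (e 1)]
    ring
  have he2 : T (e 0) (vec e sc) (e 2) = s1 * τ := by
    rw [hsvec]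
    simp only [map_add, LinearMap.add_apply, map_smul, LinearMap.smul_apply, smul_eq_mul]
    rw [t022]
    ring
  have heq1 : T (vec e c1) (vec e c1) (e 1) =
      2 * (s2 * τ) + 2 * T (vec e εc) (vec e sc) (e 1) + T (vec e sc) (vec e sc) (e 1) := by
    rw [hv', T_add_sq hT, hv1, zero_add]
    have : T v (vec e sc) (e 1) = s2 * τ + T (vec e εc) (vec e sc) (e 1) := by
      rw [hvε]
      simp only [map_add, LinearMap.add_apply]
      rw [he1]
    rw [this]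
    ring
  have heq2 : (0 : ℂ) =
      2 * (s1 * τ) + 2 * T (vec e εc) (vec e sc) (e 2) + T (vec e sc) (vec e sc) (e 2) := by
    rw [← hv'2, hv', T_add_sq hT, hv2, zero_add]
    have : T v (vec e sc) (e 2) = s1 * τ + T (vec e εc) (vec e sc) (e 2) := by
      rw [hvε]
      simp only [map_add, LinearMap.add_apply]
      rw [he2]
    rw [this]
    ring
  have h2n : ‖(2 : ℂ)‖ = 2 := by simp
  have hineq1 : 2 * (‖s2‖ * a) ≤ ‖T (vec e c1) (vec e c1) (e 1)‖ + 4 * M * η * S := by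
    have h1 : 2 * (s2 * τ) = T (vec e c1) (vec e c1) (e 1) - 2 * T (vec e εc) (vec e sc) (e 1) -
        T (vec e sc) (vec e sc) (e 1) := by
      rw [heq1]
      ring
    have h3 : ‖2 * (s2 * τ)‖ = 2 * (‖s2‖ * a) := by rw [norm_mul, norm_mul, h2n]
    rw [← h3, h1]
    refine (norm_sub_le _ _).trans ?_
    have h4 := norm_sub_le (T (vec e c1) (vec e c1) (e 1)) (2 * T (vec e εc) (vec e sc) (e 1))
    rw [norm_mul, h2n] at h4
    have h5 := hbε 1
    have h6 := hbs 1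
    linarith
  have hineq2 : 2 * (‖s1‖ * a) ≤ 4 * M * η * S := by
    have h1 : 2 * (s1 * τ) = - (2 * T (vec e εc) (vec e sc) (e 2)) -
        T (vec e sc) (vec e sc) (e 2) := by
      linear_combination -heq2
    have h3 : ‖2 * (s1 * τ)‖ = 2 * (‖s1‖ * a) := by rw [norm_mul, norm_mul, h2n]
    rw [← h3, h1]
    refine (norm_sub_le _ _).trans ?_
    rw [norm_neg, norm_mul, h2n]
    have h5 := hbε 2
    have h6 := hbs 2
    linarith
  have hSa : S * a ≤ M * (K3 ^ 2 * t ^ w 2) := by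
    have h1 : 4 * M * η * S ≤ a * S := by gcongr
    rcases le_total ‖s1‖ ‖s2‖ with h2 | h2
    · have h3 : S = ‖s2‖ := by rw [hS, max_eq_right h2]
      rw [← h3] at hineq1
      linarith
    · have h3 : S = ‖s1‖ := by rw [hS, max_eq_left h2]
      rw [← h3] at hineq2
      have h4 : S * a ≤ 0 := by linarith
      refine h4.trans ?_
      have := htp0 (w 2)
      positivity
  have hSt : S ≤ M * K3 ^ 2 / a * t ^ w 2 := by
    rw [div_mul_eq_mul_div, le_div_iff₀ ha, mul_assoc]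
    exact hSa
  -- conclusion
  have hfin : T v v v = T (vec e c1) (vec e c1) (vec e c1) - 3 * T v (vec e sc) (vec e sc) -
      T (vec e sc) (vec e sc) (vec e sc) := by
    rw [hv', T_add_cube hT]
    have h1 : T v v (vec e sc) = 0 := by
      rw [hsvec]
      simp only [map_add, map_smul, smul_eq_mul]
      rw [hv1, hv2]
      ring
    rw [h1]
    ring
  have hb1 : ‖T v (vec e sc) (vec e sc)‖ ≤ M * S ^ 2 := by
    have h1 := bound3 T e cv sc sc
    rw [← hvc] at h1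
    refine h1.trans ?_
    calc M * (‖cv‖ * ‖sc‖ * ‖sc‖) ≤ M * (1 * S * S) := by gcongr
      _ = M * S ^ 2 := by ring
  have hb2 : ‖T (vec e sc) (vec e sc) (vec e sc)‖ ≤ M * S ^ 2 := by
    have h1 := bound3 T e sc sc sc
    refine h1.trans ?_
    calc M * (‖sc‖ * ‖sc‖ * ‖sc‖) ≤ M * (1 * S * S) := by
          gcongr
          exact hscn.trans (by linarith)
      _ = M * S ^ 2 := by ring
  have hS2 : S ^ 2 ≤ (M * K3 ^ 2 / a) ^ 2 * t ^ d := by
    have h1 : S ^ 2 ≤ (M * K3 ^ 2 / a * t ^ w 2) ^ 2 := by gcongr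
    refine h1.trans ?_
    rw [mul_pow, ← pow_mul]
    have h2 : t ^ (w 2 * 2) ≤ t ^ d := pow_le_pow_of_le_one ht.le ht1 (by omega)
    gcongr
  rw [hh]
  change ‖T (chartVec e ((ξ z).1, (ξ z).2, z)) (chartVec e ((ξ z).1, (ξ z).2, z))
    (chartVec e ((ξ z).1, (ξ z).2, z))‖ ≤ _
  rw [← hv, hfin]
  have h3n : ‖(3 : ℂ)‖ = 3 := by simp
  have h4 := norm_sub_le (T (vec e c1) (vec e c1) (vec e c1)) (3 * T v (vec e sc) (vec e sc))
  have h5 := norm_sub_le (T (vec e c1) (vec e c1) (vec e c1) - 3 * T v (vec e sc) (vec e sc))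
    (T (vec e sc) (vec e sc) (vec e sc))
  rw [norm_mul, h3n] at h4
  have h6 : 4 * M * S ^ 2 ≤ 4 * M * ((M * K3 ^ 2 / a) ^ 2 * t ^ d) := by gcongr
  calc _ ≤ _ := h5
    _ ≤ M * (K3 ^ 3 * t ^ d) + 4 * M * ((M * K3 ^ 2 / a) ^ 2 * t ^ d) := by linarith
    _ = _ := by ring

end Pool.Agent.Helper61.CF

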